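import Mathlib

set_option autoImplicit false

/-! Symmetric square potential for the k-server inequality: definitions. -/

namespace Pool.MP_fe875b_lc.SD

/-- Index of the coordinates of the symmetric square of an m-dimensional space. -/
def SI : ℕ → Type
  | 0 => Empty
  | (m + 1) => Fin (m + 1) ⊕ SI m

instance instFintypeSI : ∀ m : ℕ, Fintype (SI m)
  | 0 => inferInstanceAs (Fintype Empty)
  | (m + 1) => @instFintypeSum (Fin (m + 1)) (SI m) _ (instFintypeSI m)

instance instDecidableEqSI : ∀ m : ℕ, DecidableEq (SI m)
  | 0 => inferInstanceAs (DecidableEq Empty)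
  | (m + 1) => @instDecidableEqSum (Fin (m + 1)) (SI m) _ (instDecidableEqSI m)

/-- The pair of coordinates (i,j), i ≤ j, that belongs to an index. -/
def bp : (m : ℕ) → SI m → Fin m × Fin m
  | 0, a => Empty.elim a
  | (_ + 1), Sum.inl j => (0, j)
  | (m + 1), Sum.inr b => ((bp m b).1.succ, (bp m b).2.succ)

/-- The product x·y in the symmetric square, in coordinates. -/
def prodv {K : Type*} [CommRing K] : (m : ℕ) → (Fin m → K) → (Fin m → K) → SI m → K
  | 0, _, _ => fun a => Empty.elim a
  | (m + 1), x, y =>
      Sum.elim
        (Fin.cons (x 0 * y 0) (fun j : Fin m => x 0 * y j.succ + x j.succ * y 0))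
        (prodv m (Fin.tail x) (Fin.tail y))

/-- Determinant in the symmetric square of a family of products. -/
noncomputable def symDet {K : Type*} [CommRing K] (m : ℕ) (x y : SI m → Fin m → K) : K :=
  Matrix.det (Matrix.of fun a b : SI m => prodv m (x b) (y b) a)

end Pool.MP_fe875b_lc.SD
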