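import Pool.Agent.Work.MP_fe875b_lc.SD.Defs

set_option autoImplicit false

/-! Behaviour of the symmetric square determinant under linear maps: factor det(g)^(m+1). -/

namespace Pool.MP_fe875b_lc.SD

open Matrix

section ring

variable {K : Type*} [CommRing K]

theorem sum_SI_succ {M : Type*} [AddCommMonoid M] (m : ℕ) (f : SI (m + 1) → M) :
    (∑ a, f a) = (∑ j : Fin (m + 1), f (Sum.inl j)) + ∑ b : SI m, f (Sum.inr b) :=
  Fintype.sum_sum_type f

theorem prod_SI_succ {M : Type*} [CommMonoid M] (m : ℕ) (f : SI (m + 1) → M) :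
    (∏ a, f a) = (∏ j : Fin (m + 1), f (Sum.inl j)) * ∏ b : SI m, f (Sum.inr b) :=
  Fintype.prod_sum_type f

@[simp] theorem prodv_inl_zero (m : ℕ) (x y : Fin (m + 1) → K) :
    prodv (m + 1) x y (Sum.inl 0) = x 0 * y 0 := rfl

@[simp] theorem prodv_inl_succ (m : ℕ) (x y : Fin (m + 1) → K) (j : Fin m) :
    prodv (m + 1) x y (Sum.inl j.succ) = x 0 * y j.succ + x j.succ * y 0 := rfl

@[simp] theorem prodv_inr (m : ℕ) (x y : Fin (m + 1) → K) (b : SI m) :
    prodv (m + 1) x y (Sum.inr b) = prodv m (Fin.tail x) (Fin.tail y) b := rfl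

theorem prodv_comm (m : ℕ) : ∀ (x y : Fin m → K) (a : SI m), prodv m x y a = prodv m y x a := by
  induction m with
  | zero => intro x y a; exact Empty.elim a
  | succ m ih =>
    intro x y a
    rcases a with j | b
    · refine Fin.cases ?_ (fun j => ?_) j
      · rw [prodv_inl_zero, prodv_inl_zero, mul_comm]
      · rw [prodv_inl_succ, prodv_inl_succ]; ring
    · rw [prodv_inr, prodv_inr]; exact ih _ _ b

theorem prodv_add (m : ℕ) : ∀ (x x' y : Fin m → K) (a : SI m),
    prodv m (x + x') y a = prodv m x y a + prodv m x' y a := by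
  induction m with
  | zero => intro x x' y a; exact Empty.elim a
  | succ m ih =>
    intro x x' y a
    rcases a with j | b
    · refine Fin.cases ?_ (fun j => ?_) j
      · simp only [prodv_inl_zero, Pi.add_apply]; ring
      · simp only [prodv_inl_succ, Pi.add_apply]; ring
    · simp only [prodv_inr]
      exact ih (Fin.tail x) (Fin.tail x') (Fin.tail y) b

theorem prodv_smul (m : ℕ) : ∀ (c : K) (x y : Fin m → K) (a : SI m),
    prodv m (c • x) y a = c * prodv m x y a := by
  induction m with
  | zero => intro c x y a; exact Empty.elim a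
  | succ m ih =>
    intro c x y a
    rcases a with j | b
    · refine Fin.cases ?_ (fun j => ?_) j
      · simp only [prodv_inl_zero, Pi.smul_apply, smul_eq_mul]; ring
      · simp only [prodv_inl_succ, Pi.smul_apply, smul_eq_mul]; ring
    · simp only [prodv_inr]
      exact ih c (Fin.tail x) (Fin.tail y) b

/-- The coordinate a of the product as a bilinear map. -/
def prodL (m : ℕ) (a : SI m) : (Fin m → K) →ₗ[K] (Fin m → K) →ₗ[K] K :=
  LinearMap.mk₂ K (fun x y => prodv m x y a)
    (fun x x' y => prodv_add m x x' y a)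
    (fun c x y => by rw [prodv_smul, smul_eq_mul])
    (fun x y y' => by
      show prodv m x (y + y') a = prodv m x y a + prodv m x y' a
      rw [prodv_comm, prodv_add, prodv_comm m y x, prodv_comm m y' x])
    (fun c x y => by
      show prodv m x (c • y) a = c • prodv m x y a
      rw [prodv_comm, prodv_smul, prodv_comm m y x, smul_eq_mul])

theorem prodL_apply (m : ℕ) (a : SI m) (x y : Fin m → K) : prodL m a x y = prodv m x y a := rfl

theorem bilin_expand (m : ℕ) : ∀ (β : (Fin m → K) →ₗ[K] (Fin m → K) →ₗ[K] K)
    (_ : ∀ x y, β x y = β y x) (x y : Fin m → K),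
    β x y = ∑ b : SI m, prodv m x y b * β (Pi.single (bp m b).1 1) (Pi.single (bp m b).2 1) := by
  induction m with
  | zero =>
    intro β _ x y
    have hx : x = 0 := Subsingleton.elim _ _
    have h0 : (∑ b : SI 0, prodv 0 x y b * β (Pi.single (bp 0 b).1 1) (Pi.single (bp 0 b).2 1)) = 0 :=
      Finset.sum_eq_zero (fun b _ => Empty.elim b)
    rw [h0, hx, map_zero, LinearMap.zero_apply]
  | succ m ih =>
    intro β hβ x y
    let ι : (Fin m → K) →ₗ[K] (Fin (m + 1) → K) :=
      { toFun := fun z => Fin.cons (0 : K) z
        map_add' := by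
          intro z z'; funext i; refine Fin.cases ?_ (fun i => ?_) i <;> simp
        map_smul' := by
          intro c z; funext i; refine Fin.cases ?_ (fun i => ?_) i <;> simp }
    have hι : ∀ z, ι z = Fin.cons (0 : K) z := fun z => rfl
    have hdec : ∀ z : Fin (m + 1) → K, z = z 0 • (Pi.single 0 1 : Fin (m + 1) → K) + ι (Fin.tail z) := by
      intro z
      funext i
      refine Fin.cases ?_ (fun i => ?_) i
      · simp [hι]
      · simp [hι, Fin.tail]
    have hιs : ∀ i : Fin m, ι (Pi.single i 1) = Pi.single i.succ 1 := by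
      intro i
      funext j
      refine Fin.cases ?_ (fun j => ?_) j
      · rw [hι, Fin.cons_zero, Pi.single_eq_of_ne (Fin.succ_ne_zero i).symm]
      · rw [hι, Fin.cons_succ]
        by_cases hij : j = i
        · subst hij; simp
        · rw [Pi.single_eq_of_ne hij, Pi.single_eq_of_ne (by simpa using hij)]
    have hιsum : ∀ z : Fin m → K, ι z = ∑ j : Fin m, z j • (Pi.single j.succ 1 : Fin (m + 1) → K) := by
      intro z
      have : z = ∑ j : Fin m, z j • (Pi.single j 1 : Fin m → K) := by
        simpa using (pi_eq_sum_univ' z)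
      conv_lhs => rw [this]
      rw [map_sum]
      refine Finset.sum_congr rfl (fun j _ => ?_)
      rw [map_smul, hιs]
    have hIH := ih ((LinearMap.compl₁₂ β ι ι)) (fun a b => by
      simp only [LinearMap.compl₁₂_apply]; exact hβ _ _) (Fin.tail x) (Fin.tail y)
    simp only [LinearMap.compl₁₂_apply, hιs] at hIH
    have e1 : β (Pi.single 0 1) (ι (Fin.tail y)) =
        ∑ j : Fin m, y j.succ * β (Pi.single 0 1) (Pi.single j.succ 1) := by
      rw [hιsum, map_sum]
      refine Finset.sum_congr rfl (fun j _ => ?_)
      rw [map_smul, smul_eq_mul]; rfl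
    have e2 : β (ι (Fin.tail x)) (Pi.single 0 1) =
        ∑ j : Fin m, x j.succ * β (Pi.single 0 1) (Pi.single j.succ 1) := by
      rw [hβ, hιsum, map_sum]
      refine Finset.sum_congr rfl (fun j _ => ?_)
      rw [map_smul, smul_eq_mul]; rfl
    have e3 : β x y = x 0 * y 0 * β (Pi.single 0 1) (Pi.single 0 1)
        + x 0 * β (Pi.single 0 1) (ι (Fin.tail y)) + y 0 * β (ι (Fin.tail x)) (Pi.single 0 1)
        + β (ι (Fin.tail x)) (ι (Fin.tail y)) := by
      conv_lhs => rw [hdec x, hdec y]
      simp only [map_add, LinearMap.add_apply, map_smul, LinearMap.smul_apply, smul_eq_mul]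
      ring
    rw [e3, e1, e2, hIH, sum_SI_succ, Fin.sum_univ_succ]
    simp only [bp, prodv_inl_zero, prodv_inl_succ, prodv_inr]
    rw [Finset.mul_sum, Finset.mul_sum]
    have e4 : ∑ i : Fin m, (x 0 * y i.succ + x i.succ * y 0) *
          β (Pi.single 0 1) (Pi.single i.succ 1)
        = (∑ i : Fin m, x 0 * (y i.succ * β (Pi.single 0 1) (Pi.single i.succ 1)))
          + ∑ i : Fin m, y 0 * (x i.succ * β (Pi.single 0 1) (Pi.single i.succ 1)) := by
      rw [← Finset.sum_add_distrib]
      refine Finset.sum_congr rfl (fun i _ => ?_)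
      ring
    rw [e4]
    ring

/-- The matrix of the symmetric square of g. -/
noncomputable def Smat (m : ℕ) (g : Matrix (Fin m) (Fin m) K) : Matrix (SI m) (SI m) K :=
  Matrix.of fun a b => prodv m (g *ᵥ Pi.single (bp m b).1 1) (g *ᵥ Pi.single (bp m b).2 1) a

theorem Smat_apply_prod (m : ℕ) (g : Matrix (Fin m) (Fin m) K) (x y : Fin m → K) (a : SI m) :
    prodv m (g *ᵥ x) (g *ᵥ y) a = ∑ b, Smat m g a b * prodv m x y b := by
  have h := bilin_expand m ((LinearMap.compl₁₂ (prodL m a) (Matrix.mulVecLin g) (Matrix.mulVecLin g)))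
    (fun x y => by
      simp only [LinearMap.compl₁₂_apply, prodL_apply]; exact prodv_comm _ _ _ _) x y
  simp only [LinearMap.compl₁₂_apply, prodL_apply, Matrix.mulVecLin_apply] at h
  rw [h]
  refine Finset.sum_congr rfl (fun b _ => ?_)
  rw [mul_comm]; rfl

theorem symDet_mulVec (m : ℕ) (g : Matrix (Fin m) (Fin m) K) (x y : SI m → Fin m → K) :
    symDet m (fun b => g *ᵥ x b) (fun b => g *ᵥ y b) = (Smat m g).det * symDet m x y := by
  unfold symDet
  rw [← Matrix.det_mul]
  congr 1
  ext a b
  simp only [Matrix.of_apply, Matrix.mul_apply]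
  exact Smat_apply_prod m g (x b) (y b) a

theorem Smat_mul (m : ℕ) (g h : Matrix (Fin m) (Fin m) K) : Smat m (g * h) = Smat m g * Smat m h := by
  ext a b
  simp only [Matrix.mul_apply]
  have := Smat_apply_prod m g (h *ᵥ Pi.single (bp m b).1 1) (h *ᵥ Pi.single (bp m b).2 1) a
  simp only [Matrix.mulVec_mulVec] at this
  exact this

theorem prodv_single (m : ℕ) : ∀ (a b : SI m),
    (a = b → prodv (K := K) m (Pi.single (bp m b).1 1) (Pi.single (bp m b).2 1) a = 1) ∧
    (a ≠ b → prodv (K := K) m (Pi.single (bp m b).1 1) (Pi.single (bp m b).2 1) a = 0) := by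
  induction m with
  | zero => intro a b; exact Empty.elim a
  | succ m ih =>
    intro a b
    have htail : ∀ i : Fin m, (Fin.tail (Pi.single i.succ 1 : Fin (m + 1) → K)) = Pi.single i 1 := by
      intro i
      funext j
      by_cases hij : j = i
      · subst hij; simp [Fin.tail]
      · rw [Fin.tail, Pi.single_eq_of_ne hij, Pi.single_eq_of_ne (by simpa using hij)]
    have htail0 : (Fin.tail (Pi.single 0 1 : Fin (m + 1) → K)) = 0 := by
      funext j
      rw [Fin.tail, Pi.single_eq_of_ne (Fin.succ_ne_zero j)]; rfl
    have hzero : ∀ (z : Fin m → K) (c : SI m), prodv m (0 : Fin m → K) z c = 0 := by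
      intro z c
      have := prodv_smul m (0 : K) (0 : Fin m → K) z c
      rwa [zero_smul, zero_mul] at this
    rcases b with k | b
    · rcases a with j | a
      · have key : prodv (K := K) (m + 1) (Pi.single 0 1) (Pi.single k 1) (Sum.inl j)
            = (Pi.single k 1 : Fin (m + 1) → K) j := by
          refine Fin.cases ?_ (fun j => ?_) j
          · rw [prodv_inl_zero, Pi.single_eq_same, one_mul]
          · rw [prodv_inl_succ, Pi.single_eq_same, one_mul, Pi.single_eq_of_ne (Fin.succ_ne_zero j),
              zero_mul, add_zero]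
        constructor
        · intro h
          have hjk : j = k := Sum.inl.inj h
          subst hjk
          exact key.trans (by simp)
        · intro h
          have hjk : j ≠ k := fun h' => h (by rw [h'])
          exact key.trans (Pi.single_eq_of_ne hjk 1)
      · constructor
        · intro h; cases h
        · intro _
          show prodv m (Fin.tail (Pi.single 0 1 : Fin (m + 1) → K)) _ a = 0
          rw [htail0, hzero]
    · rcases a with j | a
      · constructor
        · intro h; cases h
        · intro _
          show prodv (K := K) (m + 1) (Pi.single (bp m b).1.succ 1) (Pi.single (bp m b).2.succ 1) (Sum.inl j) = 0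
          refine Fin.cases ?_ (fun j => ?_) j
          · rw [prodv_inl_zero, Pi.single_eq_of_ne (Fin.succ_ne_zero _).symm, zero_mul]
          · rw [prodv_inl_succ, Pi.single_eq_of_ne (Fin.succ_ne_zero _).symm, zero_mul,
              Pi.single_eq_of_ne (Fin.succ_ne_zero _).symm, mul_zero, add_zero]
      · have key : prodv (K := K) (m + 1) (Pi.single (bp m b).1.succ 1) (Pi.single (bp m b).2.succ 1) (Sum.inr a)
            = prodv (K := K) m (Pi.single (bp m b).1 1) (Pi.single (bp m b).2 1) a := by
          rw [prodv_inr, htail, htail]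
        constructor
        · intro h
          exact key.trans ((ih a b).1 (Sum.inr.inj h))
        · intro h
          exact key.trans ((ih a b).2 (fun h' => h (by rw [h'])))

theorem Smat_diagonal (m : ℕ) (d : Fin m → K) :
    Smat m (Matrix.diagonal d) = Matrix.diagonal (fun b => d (bp m b).1 * d (bp m b).2) := by
  ext a b
  have h1 : ∀ i : Fin m, (Matrix.diagonal d) *ᵥ (Pi.single i 1 : Fin m → K) = d i • Pi.single i 1 := by
    intro i
    funext j
    rw [Matrix.mulVec_diagonal, Pi.smul_apply, smul_eq_mul]
    by_cases hij : j = i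
    · subst hij; rfl
    · rw [Pi.single_eq_of_ne hij, mul_zero, mul_zero]
  show prodv m ((Matrix.diagonal d) *ᵥ Pi.single (bp m b).1 1)
    ((Matrix.diagonal d) *ᵥ Pi.single (bp m b).2 1) a = _
  rw [h1, h1, prodv_smul, prodv_comm, prodv_smul, prodv_comm, Matrix.diagonal_apply]
  by_cases hab : a = b
  · rw [(prodv_single m a b).1 hab, if_pos hab, hab]; ring
  · rw [(prodv_single m a b).2 hab, if_neg hab]; ring

theorem prod_bp (m : ℕ) : ∀ (d : Fin m → K),
    (∏ b : SI m, d (bp m b).1 * d (bp m b).2) = (∏ i, d i) ^ (m + 1) := by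
  induction m with
  | zero =>
    intro d
    have : (∏ b : SI 0, d (bp 0 b).1 * d (bp 0 b).2) = 1 :=
      Finset.prod_eq_one (fun b _ => Empty.elim b)
    rw [this]; simp
  | succ m ih =>
    intro d
    rw [prod_SI_succ]
    have h1 : (∏ b : SI m, d (bp (m + 1) (Sum.inr b)).1 * d (bp (m + 1) (Sum.inr b)).2)
        = (∏ i : Fin m, d i.succ) ^ (m + 1) := ih (fun i => d i.succ)
    have h2 : (∏ j : Fin (m + 1), d (bp (m + 1) (Sum.inl j)).1 * d (bp (m + 1) (Sum.inl j)).2)
        = d 0 ^ (m + 1) * ∏ j, d j := by
      have : ∀ j : Fin (m + 1), d (bp (m + 1) (Sum.inl j)).1 * d (bp (m + 1) (Sum.inl j)).2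
          = d 0 * d j := fun j => rfl
      rw [Finset.prod_congr rfl (fun j _ => this j), Finset.prod_mul_distrib, Finset.prod_const,
        Finset.card_univ, Fintype.card_fin]
    rw [h1, h2, Fin.prod_univ_succ]
    ring

theorem det_Smat_diagonal (m : ℕ) (d : Fin m → K) :
    (Smat m (Matrix.diagonal d)).det = (Matrix.diagonal d).det ^ (m + 1) := by
  rw [Smat_diagonal, Matrix.det_diagonal, Matrix.det_diagonal, prod_bp]

theorem det_Smat_one (m : ℕ) : (Smat m (1 : Matrix (Fin m) (Fin m) K)).det = 1 := by
  have h := det_Smat_diagonal m (fun _ : Fin m => (1 : K))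
  have h1 : Matrix.diagonal (fun _ : Fin m => (1 : K)) = 1 := Matrix.diagonal_one
  rw [h1] at h
  rw [h]; simp

end ring

section field

variable {K : Type*} [Field K] [CharZero K]

theorem det_Smat_transvection (m : ℕ) (i j : Fin m) (hij : i ≠ j) (c : K) :
    (Smat m (Matrix.transvection i j c)).det = 1 := by
  set s := (Smat m (Matrix.transvection i j c)).det with hs
  have hinv : s * (Smat m (Matrix.transvection i j (-c))).det = 1 := by
    rw [hs, ← Matrix.det_mul, ← Smat_mul, Matrix.transvection_mul_transvection_same _ _ hij]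
    simp [det_Smat_one]
  have hs0 : s ≠ 0 := fun h => by rw [h, zero_mul] at hinv; exact zero_ne_one hinv
  -- diag(2 at i) * t(c) = t(2c) * diag(2 at i)
  let D : Fin m → K := Function.update (fun _ => (1 : K)) i 2
  have hcomm : Matrix.diagonal D * Matrix.transvection i j c
      = (Matrix.transvection i j c * Matrix.transvection i j c) * Matrix.diagonal D := by
    rw [Matrix.transvection_mul_transvection_same _ _ hij]
    ext a b
    rw [Matrix.diagonal_mul, Matrix.mul_diagonal]
    simp only [Matrix.transvection, Matrix.add_apply, Matrix.one_apply, Matrix.single_apply, D]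
    by_cases hai : a = i
    · subst hai
      by_cases hbj : b = j
      · subst hbj
        simp only [Function.update_self, hij, hij.symm, ne_eq, not_false_eq_true,
          Function.update_of_ne, if_false, if_true, and_self, zero_add, mul_one]
        ring
      · by_cases hab : a = b
        · subst hab
          simp [Ne.symm hij, Function.update_self, mul_comm]
        · have hjb : ¬ j = b := fun h => hbj h.symm
          simp [hab, hjb]
    · have hia : ¬ i = a := fun h => hai h.symm
      by_cases hab : a = b
      · subst hab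
        simp [hia, Function.update_of_ne hai]
      · simp [hab, hia]
  have h2 : (Smat m (Matrix.diagonal D)).det * s = s * s * (Smat m (Matrix.diagonal D)).det := by
    rw [hs, ← Matrix.det_mul, ← Matrix.det_mul, ← Matrix.det_mul, ← Smat_mul, ← Smat_mul, ← Smat_mul,
      hcomm]
  have hD : (Smat m (Matrix.diagonal D)).det ≠ 0 := by
    rw [det_Smat_diagonal, Matrix.det_diagonal]
    refine pow_ne_zero _ (Finset.prod_ne_zero_iff.mpr (fun a _ => ?_))
    by_cases hai : a = i
    · subst hai; simp only [D, Function.update_self]; exact two_ne_zero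
    · simp only [D, Function.update_of_ne hai]; exact one_ne_zero
  have h3 : s * ((Smat m (Matrix.diagonal D)).det * (s - 1)) = 0 := by
    linear_combination -h2
  rcases mul_eq_zero.mp h3 with h | h
  · exact absurd h hs0
  · rcases mul_eq_zero.mp h with h | h
    · exact absurd h hD
    · exact sub_eq_zero.mp h

theorem det_Smat (m : ℕ) (g : Matrix (Fin m) (Fin m) K) : (Smat m g).det = g.det ^ (m + 1) := by
  refine Matrix.diagonal_transvection_induction (fun M => (Smat m M).det = M.det ^ (m + 1)) g ?_ ?_ ?_
  · intro D _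
    exact det_Smat_diagonal m D
  · intro t
    show (Smat m t.toMatrix).det = t.toMatrix.det ^ (m + 1)
    rw [Matrix.TransvectionStruct.det, one_pow]
    exact det_Smat_transvection m t.i t.j t.hij t.c
  · intro A B hA hB
    rw [Smat_mul, Matrix.det_mul, hA, hB, Matrix.det_mul, mul_pow]

/-- Scale factor of the symmetric square determinant. -/
theorem symDet_lin (m : ℕ) (g : Matrix (Fin m) (Fin m) K) (x y : SI m → Fin m → K) :
    symDet m (fun b => g *ᵥ x b) (fun b => g *ᵥ y b) = g.det ^ (m + 1) * symDet m x y := by
  rw [symDet_mulVec, det_Smat]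

end field

end Pool.MP_fe875b_lc.SD
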